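import Pool.Agent.Helper22.TB.Goals

/-!
# Packet TB-RAP (MP_74f661_nt): rough numbers in progressions
-/

set_option autoImplicit false

open Finset Filter Topology
open Pool.Agent.Helper90.Twin (Ps Gz mem_Ps)
open scoped Classical
open Pool.Agent.Helper22.TB

namespace Pool.Agent.Helper77.TB

/-- the conditions on `s = sqrt (log Q)` hold for large `Q` -/
lemma ev_s (C₁ : ℝ) : ∃ s₀ : ℝ, 2 ≤ s₀ ∧ ∀ s : ℝ, s₀ ≤ s → Real.log s ≤ s / 74 ∧ C₁ ≤ Real.log s := by
  have h1 : ∀ᶠ s : ℝ in atTop, ‖Real.log s‖ ≤ (1 / 74 : ℝ) * ‖(id s : ℝ)‖ :=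
    Real.isLittleO_log_id_atTop.bound (by norm_num)
  have h2 : ∀ᶠ s : ℝ in atTop, C₁ ≤ Real.log s := Real.tendsto_log_atTop.eventually_ge_atTop C₁
  have h3 : ∀ᶠ s : ℝ in atTop, (2 : ℝ) ≤ s := eventually_ge_atTop 2
  obtain ⟨s₀, hs₀⟩ := eventually_atTop.mp (h1.and (h2.and h3))
  refine ⟨s₀, (hs₀ s₀ le_rfl).2.2, fun s hs => ?_⟩
  obtain ⟨a, b, c⟩ := hs₀ s hs
  refine ⟨?_, b⟩
  have hs0 : (0 : ℝ) ≤ s := by linarith
  rw [Real.norm_eq_abs, Real.norm_eq_abs, id, abs_of_nonneg hs0] at a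
  have := le_abs_self (Real.log s)
  linarith

/-- the number of `t < p` with `p ∣ c + q (t₀ + t)` is one -/
lemma card_bad (p q c t₀ : ℕ) (hp : p.Prime) (hpq : ¬ p ∣ q) :
    ((range p).filter (fun t => p ∣ c + q * (t₀ + t))).card = 1 := by
  haveI : Fact p.Prime := ⟨hp⟩
  have hq : (q : ZMod p) ≠ 0 := fun h => hpq ((ZMod.natCast_eq_zero_iff q p).mp h)
  rw [Finset.card_eq_one]
  refine ⟨((-(c : ZMod p) * (q : ZMod p)⁻¹ - t₀ : ZMod p)).val, ?_⟩
  ext t
  rw [mem_filter, mem_singleton, mem_range]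
  have key : p ∣ c + q * (t₀ + t) ↔ (t : ZMod p) = -(c : ZMod p) * (q : ZMod p)⁻¹ - t₀ := by
    rw [← ZMod.natCast_eq_zero_iff]
    push_cast
    constructor
    · intro h
      have h2 : (q : ZMod p) * (t₀ + t) = -c := by
        linear_combination h
      have h3 : ((t₀ : ZMod p) + t) = -(c : ZMod p) * (q : ZMod p)⁻¹ := by
        rw [← h2]
        field_simp
      linear_combination h3
    · intro h
      rw [h]
      field_simp
      ring
  rw [key]
  constructor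
  · rintro ⟨h1, h2⟩
    rw [← h2, ZMod.val_natCast, Nat.mod_eq_of_lt h1]
  · intro h
    refine ⟨h ▸ ZMod.val_lt _, ?_⟩
    rw [h, ZMod.natCast_val, ZMod.cast_id', id]

/-- the product over the primes not dividing `q` -/
lemma prod_coprime (Y q : ℕ) (hq : q ≠ 0) :
    ∏ p ∈ (Ps Y).filter (fun p => ¬ p ∣ q), (1 - 1 / (p : ℝ)) ≤
      ((q : ℝ) / (Nat.totient q : ℝ)) * ∏ p ∈ Ps Y, (1 - 1 / (p : ℝ)) := by
  have hpos : ∀ p : ℕ, p.Prime → (0 : ℝ) < 1 - 1 / (p : ℝ) := by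
    intro p hp
    have : (2 : ℝ) ≤ p := by exact_mod_cast hp.two_le
    have h2 : 1 / (p : ℝ) ≤ 1 / 2 := one_div_le_one_div_of_le (by norm_num) this
    linarith
  have hle1 : ∀ p : ℕ, (1 - 1 / (p : ℝ)) ≤ 1 := by
    intro p
    have : (0 : ℝ) ≤ 1 / (p : ℝ) := by positivity
    linarith
  have hφ : (0 : ℝ) < Nat.totient q := by
    exact_mod_cast Nat.totient_pos.mpr (Nat.pos_of_ne_zero hq)
  have hq' : (0 : ℝ) < q := by exact_mod_cast Nat.pos_of_ne_zero hq
  have hphi : (Nat.totient q : ℝ) / q = ∏ p ∈ q.primeFactors, (1 - 1 / (p : ℝ)) := by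
    have h := Nat.totient_eq_mul_prod_factors q
    have h' := congrArg (fun x : ℚ => (x : ℝ)) h
    push_cast at h'
    rw [h', mul_comm, mul_div_assoc, div_self hq'.ne', mul_one]
    refine Finset.prod_congr rfl fun p _ => ?_
    rw [one_div]
  have hsplit := Finset.prod_filter_mul_prod_filter_not (Ps Y) (fun p => p ∣ q)
    (fun p => (1 - 1 / (p : ℝ)))
  have hbd : (Nat.totient q : ℝ) / q ≤ ∏ p ∈ (Ps Y).filter (fun p => p ∣ q), (1 - 1 / (p : ℝ)) := by
    rw [hphi]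
    have hsub : (Ps Y).filter (fun p => p ∣ q) ⊆ q.primeFactors := by
      intro p hp
      rw [mem_filter, mem_Ps] at hp
      exact Nat.mem_primeFactors.mpr ⟨hp.1.2.2, hp.2, hq⟩
    rw [← Finset.prod_sdiff hsub]
    have h1 : ∏ p ∈ q.primeFactors \ (Ps Y).filter (fun p => p ∣ q), (1 - 1 / (p : ℝ)) ≤ 1 := by
      refine Finset.prod_le_one (fun p hp => ?_) (fun p _ => hle1 p)
      exact (hpos p (Nat.prime_of_mem_primeFactors (mem_sdiff.mp hp).1)).le
    have h2 : 0 ≤ ∏ p ∈ (Ps Y).filter (fun p => p ∣ q), (1 - 1 / (p : ℝ)) := by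
      refine Finset.prod_nonneg fun p hp => ?_
      rw [mem_filter, mem_Ps] at hp
      exact (hpos p hp.1.2.2).le
    calc _ ≤ 1 * ∏ p ∈ (Ps Y).filter (fun p => p ∣ q), (1 - 1 / (p : ℝ)) :=
          mul_le_mul_of_nonneg_right h1 h2
      _ = _ := one_mul _
  have h2 : 0 ≤ ∏ p ∈ (Ps Y).filter (fun p => ¬ p ∣ q), (1 - 1 / (p : ℝ)) := by
    refine Finset.prod_nonneg fun p hp => ?_
    rw [mem_filter, mem_Ps] at hp
    exact (hpos p hp.1.2.2).le
  rw [← hsplit]
  calc ∏ p ∈ (Ps Y).filter (fun p => ¬ p ∣ q), (1 - 1 / (p : ℝ))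
      = ((q : ℝ) / (Nat.totient q : ℝ)) * (((Nat.totient q : ℝ) / q) *
        ∏ p ∈ (Ps Y).filter (fun p => ¬ p ∣ q), (1 - 1 / (p : ℝ))) := by
        field_simp
    _ ≤ _ := by
        apply mul_le_mul_of_nonneg_left _ (by positivity)
        exact mul_le_mul_of_nonneg_right hbd h2

/-- the combinatorial part: reduction to the sieve -/
lemma count_le (Q q c : ℕ) (hq : 1 ≤ q) (y : ℝ) (P : Finset ℕ) (hP : ∀ p ∈ P, p.Prime ∧ (p : ℝ) ≤ y) :
    ((Ioc (Q / q) (2 * Q / q)).filter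
        (fun x : ℕ => x % q = c ∧ ∀ p, p.Prime → p ∣ x → y < p)).card ≤
      ((range (Q / (q * q) + 2)).filter
        (fun t => ∀ p ∈ P, ¬ p ∣ c + q * (Q / (q * q) + t))).card := by
  apply Finset.card_le_card_of_injOn (fun x => x / q - Q / (q * q))
  · intro x hx
    rw [mem_coe, mem_filter, mem_Ioc] at hx
    obtain ⟨⟨h1, h2⟩, h3, h4⟩ := hx
    have ha : Q / (q * q) ≤ x / q := by
      rw [← Nat.div_div_eq_div_mul]
      exact Nat.div_le_div_right h1.le
    have hb : x / q ≤ 2 * (Q / (q * q)) + 1 := by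
      have h5 : x / q ≤ 2 * Q / (q * q) := by
        rw [← Nat.div_div_eq_div_mul]
        exact Nat.div_le_div_right h2
      have h6 : 2 * Q / (q * q) < 2 * (Q / (q * q)) + 2 := by
        have hqq : 0 < q * q := by positivity
        rw [Nat.div_lt_iff_lt_mul hqq]
        have h7 := Nat.div_add_mod Q (q * q)
        have h8 := Nat.mod_lt Q hqq
        nlinarith
      omega
    rw [mem_coe, mem_filter, mem_range]
    refine ⟨show x / q - Q / (q * q) < Q / (q * q) + 2 by omega, fun p hp hdvd => ?_⟩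
    change p ∣ c + q * (Q / (q * q) + (x / q - Q / (q * q))) at hdvd
    have h9 : c + q * (Q / (q * q) + (x / q - Q / (q * q))) = x := by
      rw [show Q / (q * q) + (x / q - Q / (q * q)) = x / q by omega, ← h3]
      exact Nat.mod_add_div x q
    rw [h9] at hdvd
    have h10 := h4 p (hP p hp).1 hdvd
    have h11 := (hP p hp).2
    linarith
  · intro x hx x' hx' h
    rw [mem_coe, mem_filter, mem_Ioc] at hx hx'
    have ha : Q / (q * q) ≤ x / q := by
      rw [← Nat.div_div_eq_div_mul]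
      exact Nat.div_le_div_right hx.1.1.le
    have ha' : Q / (q * q) ≤ x' / q := by
      rw [← Nat.div_div_eq_div_mul]
      exact Nat.div_le_div_right hx'.1.1.le
    have h' : x / q = x' / q := by
      have : x / q - Q / (q * q) = x' / q - Q / (q * q) := h
      omega
    rw [← Nat.mod_add_div x q, ← Nat.mod_add_div x' q, hx.2.1, hx'.2.1, h']

lemma pow_div_fact (S : ℝ) (hS : 0 ≤ S) (b : ℕ) :
    S ^ b / (b.factorial : ℝ) ≤ Real.exp (Real.exp 1 * S - b) := by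
  have h := Real.pow_div_factorial_le_exp (Real.exp 1 * S) (by positivity) b
  rw [mul_pow, ← Real.exp_nat_mul, mul_one] at h
  rw [Real.exp_sub]
  rw [le_div_iff₀ (Real.exp_pos _)]
  calc S ^ b / (b.factorial : ℝ) * Real.exp b = Real.exp b * S ^ b / (b.factorial : ℝ) := by ring
    _ ≤ _ := h

theorem gRAP : G_RAP := by
  intro hMP hBRU
  obtain ⟨⟨C₁, hC₁, hM1⟩, -, ⟨C₃, hC₃, hM3⟩⟩ := hMP
  obtain ⟨s₀, hs₀2, hs₀⟩ := ev_s C₁
  refine ⟨6 * C₃ + 7, ⌈Real.exp (s₀ ^ 2)⌉₊, by positivity, ?_⟩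
  intro Q hQ q hq hqQ c
  -- the parameter `s`
  have hQe : Real.exp (s₀ ^ 2) ≤ Q := (Nat.le_ceil _).trans (by exact_mod_cast hQ)
  have hQpos : (0 : ℝ) < Q := lt_of_lt_of_le (Real.exp_pos _) hQe
  have hLs : s₀ ^ 2 ≤ Real.log Q := by
    rw [Real.le_log_iff_exp_le hQpos]
    exact hQe
  set s := Real.sqrt (Real.log Q) with hs
  have hL0 : 0 ≤ Real.log Q := le_trans (by positivity) hLs
  have hs2 : s ^ 2 = Real.log Q := Real.sq_sqrt hL0
  have hss₀ : s₀ ≤ s := by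
    rw [hs]
    exact Real.le_sqrt_of_sq_le hLs
  have hs2' : 2 ≤ s := hs₀2.trans hss₀
  obtain ⟨hlog1, hlog2⟩ := hs₀ s hss₀
  have hlogs : 1 / 2 ≤ Real.log s := by
    have h1 : Real.log 2 ≤ Real.log s := Real.log_le_log (by norm_num) hs2'
    have h2 := Real.log_two_gt_d9
    linarith
  have hspos : 0 < s := by linarith
  have hW : (Real.log Q) ^ (-(1 / 2) : ℝ) = 1 / s := by
    rw [Real.rpow_neg hL0, ← Real.sqrt_eq_rpow, ← hs, one_div]
  -- the number `q`
  have hq0 : q ≠ 0 := hq.1.ne_zero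
  have hq1 : 1 ≤ q := Nat.pos_of_ne_zero hq0
  have hqr : (1 : ℝ) ≤ q := by exact_mod_cast hq1
  -- `Y`
  set Y := ⌊Real.exp s⌋₊ with hY
  have hexp3 : 3 ≤ Real.exp s := by
    have := Real.add_one_le_exp s
    linarith
  have hY3 : 3 ≤ Y := by
    rw [hY]
    apply Nat.le_floor
    exact_mod_cast hexp3
  have hYle : (Y : ℝ) ≤ Real.exp s := Nat.floor_le (Real.exp_pos s).le
  have hYge : Real.exp s / 2 ≤ Y := by
    have := Nat.lt_floor_add_one (Real.exp s)
    rw [← hY] at this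
    linarith
  have hYpos : (0 : ℝ) < Y := by
    have : (3 : ℝ) ≤ Y := by exact_mod_cast hY3
    linarith
  have hlogY : s / 2 ≤ Real.log Y := by
    have h1 : Real.log (Real.exp s / 2) ≤ Real.log Y := Real.log_le_log (by positivity) hYge
    rw [Real.log_div (Real.exp_pos s).ne' (by norm_num), Real.log_exp] at h1
    have h2 := Real.log_two_lt_d9
    linarith
  have hlogY' : Real.log Y ≤ s := by
    rw [Real.log_le_iff_le_exp hYpos]
    exact hYle
  have hyQ : Real.exp s ≤ yQ Q := by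
    rw [yQ, Real.exp_le_exp, ← hs2, Real.log_pow]
    push_cast
    rw [le_div_iff₀ (by positivity)]
    nlinarith
  -- the sifting set
  set P := (Ps Y).filter (fun p => ¬ p ∣ q) with hPdef
  have hPp : ∀ p ∈ P, p.Prime ∧ (p : ℝ) ≤ yQ Q := by
    intro p hp
    rw [hPdef, mem_filter, mem_Ps] at hp
    refine ⟨hp.1.2.2, ?_⟩
    have : (p : ℝ) ≤ Y := by exact_mod_cast hp.1.2.1
    linarith
  have hcount := count_le Q q c hq1 (yQ Q) P hPp
  set t₀ := Q / (q * q) with ht₀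
  set N := t₀ + 2 with hN
  obtain ⟨b, hb1, hb2⟩ : ∃ b : ℕ, 16 * Real.log s ≤ b ∧ (b : ℝ) ≤ 18 * Real.log s := by
    refine ⟨⌈16 * Real.log s⌉₊, Nat.le_ceil _, ?_⟩
    have := Nat.ceil_lt_add_one (show 0 ≤ 16 * Real.log s by linarith)
    linarith
  have hbru := hBRU P (fun p t => p ∣ c + q * (t₀ + t)) (fun _ => 1) N b
    (fun p hp => (hPp p hp).1)
    (fun p hp t => by
      rw [show c + q * (t₀ + (t + p)) = (c + q * (t₀ + t)) + p * q by ring]
      exact (Nat.dvd_add_left (Dvd.intro q rfl)))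
    (fun p hp => by
      have h2 := (mem_filter.mp hp).2
      have h3 := card_bad p q c t₀ (hPp p hp).1 h2
      convert h3)
  -- estimates
  have hM : Real.exp (s ^ 2 / 2) ≤ (Q : ℝ) / (q : ℝ) ^ 2 := by
    have hQs : (Q : ℝ) = Real.exp (s ^ 2) := by
      rw [hs2, Real.exp_log hQpos]
    have hqs : (q : ℝ) ≤ Real.exp (s ^ 2 / 4) := by
      refine hqQ.trans (le_of_eq ?_)
      rw [hQs, ← Real.exp_mul]
      congr 1
      ring
    have hqs2 : (q : ℝ) ^ 2 ≤ Real.exp (s ^ 2 / 2) := by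
      calc (q : ℝ) ^ 2 ≤ Real.exp (s ^ 2 / 4) ^ 2 := pow_le_pow_left₀ (by positivity) hqs 2
        _ = Real.exp (s ^ 2 / 2) := by
          rw [← Real.exp_nat_mul]
          congr 1
          push_cast
          ring
    rw [le_div_iff₀ (by positivity)]
    calc Real.exp (s ^ 2 / 2) * (q : ℝ) ^ 2 ≤ Real.exp (s ^ 2 / 2) * Real.exp (s ^ 2 / 2) :=
          mul_le_mul_of_nonneg_left hqs2 (Real.exp_pos _).le
      _ = Q := by
          rw [← Real.exp_add, hQs]
          congr 1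
          ring
  set M := (Q : ℝ) / (q : ℝ) ^ 2 with hMdef
  have hM1' : 1 ≤ M := le_trans (by
    have := Real.add_one_le_exp (s ^ 2 / 2)
    nlinarith) hM
  have hNM : (N : ℝ) ≤ 3 * M := by
    have h1 : (t₀ : ℝ) ≤ M := by
      rw [ht₀, hMdef]
      have := @Nat.cast_div_le ℝ _ _ _ Q (q * q)
      push_cast at this
      rw [pow_two]
      exact this
    rw [hN]
    push_cast
    linarith
  have hMN : M ≤ N := by
    have h1 : (Q : ℝ) < ((t₀ : ℝ) + 1) * ((q : ℝ) ^ 2) := by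
      have h2 : Q < (t₀ + 1) * (q * q) := by
        rw [ht₀]
        have := Nat.lt_div_mul_add (a := Q) (b := q * q) (by positivity)
        linarith [this]
      have h3 : (Q : ℝ) < (((t₀ + 1) * (q * q) : ℕ) : ℝ) := by exact_mod_cast h2
      push_cast at h3
      rw [pow_two]
      exact h3
    have h4 : M < (t₀ : ℝ) + 1 := by
      rw [hMdef, div_lt_iff₀ (by positivity)]
      exact h1
    rw [hN]
    push_cast
    linarith
  set A := (q : ℝ) / (Nat.totient q : ℝ) with hA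
  have hφ : (0 : ℝ) < Nat.totient q := by
    exact_mod_cast Nat.totient_pos.mpr hq1
  have hA1 : 1 ≤ A := by
    rw [hA, le_div_iff₀ hφ, one_mul]
    exact_mod_cast Nat.totient_le q
  have hS : ∑ p ∈ P, ((1 : ℕ) : ℝ) / (p : ℝ) ≤ 2 * Real.log s := by
    calc ∑ p ∈ P, ((1 : ℕ) : ℝ) / (p : ℝ) ≤ ∑ p ∈ Ps Y, 1 / (p : ℝ) := by
          push_cast
          exact Finset.sum_le_sum_of_subset_of_nonneg (filter_subset _ _) (fun p _ _ => by positivity)
      _ ≤ Real.log (Real.log Y) + C₁ := hM1 Y hY3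
      _ ≤ Real.log s + Real.log s := by
          have h1 : Real.log (Real.log Y) ≤ Real.log s :=
            Real.log_le_log (by linarith) hlogY'
          linarith
      _ = 2 * Real.log s := by ring
  have hS0 : 0 ≤ ∑ p ∈ P, ((1 : ℕ) : ℝ) / (p : ℝ) := Finset.sum_nonneg fun p _ => by positivity
  have hterm2 : (∑ p ∈ P, ((1 : ℕ) : ℝ) / (p : ℝ)) ^ b / (b.factorial : ℝ) ≤ 1 / s := by
    refine (pow_div_fact _ hS0 b).trans ?_
    have he := Real.exp_one_lt_d9
    have h1 : Real.exp 1 * ∑ p ∈ P, ((1 : ℕ) : ℝ) / (p : ℝ) - b ≤ - Real.log s := by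
      have h2 : Real.exp 1 * ∑ p ∈ P, ((1 : ℕ) : ℝ) / (p : ℝ) ≤ 3 * (2 * Real.log s) := by
        apply mul_le_mul _ hS hS0 (by norm_num)
        linarith
      linarith
    calc Real.exp (Real.exp 1 * ∑ p ∈ P, ((1 : ℕ) : ℝ) / (p : ℝ) - b) ≤ Real.exp (- Real.log s) :=
          Real.exp_le_exp.mpr h1
      _ = 1 / s := by rw [Real.exp_neg, Real.exp_log hspos, one_div]
  have hterm3 : (1 + ∑ p ∈ P, (((1 : ℕ)) : ℝ)) ^ b ≤ M * (1 / s) := by
    have h1 : 1 + ∑ p ∈ P, ((1 : ℕ) : ℝ) ≤ Real.exp (2 * s) := by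
      have hcard : P.card ≤ Y := by
        calc P.card ≤ (Finset.Icc 1 Y).card := by
              apply Finset.card_le_card
              intro p hp
              rw [hPdef, mem_filter, mem_Ps] at hp
              rw [mem_Icc]
              exact ⟨hp.1.2.2.one_le, hp.1.2.1⟩
          _ = Y := by simp
      have hc2 : (P.card : ℝ) ≤ Y := by exact_mod_cast hcard
      have h3 : ∑ p ∈ P, ((1 : ℕ) : ℝ) = P.card := by simp
      rw [h3]
      have h4 : Real.exp (2 * s) = Real.exp s * Real.exp s := by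
        rw [← Real.exp_add]
        congr 1
        ring
      rw [h4]
      nlinarith
    have h0 : 0 ≤ 1 + ∑ p ∈ P, ((1 : ℕ) : ℝ) := by positivity
    calc (1 + ∑ p ∈ P, ((1 : ℕ) : ℝ)) ^ b ≤ Real.exp (2 * s) ^ b := pow_le_pow_left₀ h0 h1 b
      _ = Real.exp (b * (2 * s)) := by rw [← Real.exp_nat_mul]
      _ ≤ Real.exp (s ^ 2 / 2 - Real.log s) := by
          apply Real.exp_le_exp.mpr
          have h5 : (b : ℝ) * (2 * s) ≤ 18 * Real.log s * (2 * s) :=
            mul_le_mul_of_nonneg_right hb2 (by linarith)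
          have h6 : Real.log s * s ≤ s / 74 * s := mul_le_mul_of_nonneg_right hlog1 (by linarith)
          nlinarith
      _ = Real.exp (s ^ 2 / 2) * (1 / s) := by
          rw [Real.exp_sub, Real.exp_log hspos]
          ring
      _ ≤ M * (1 / s) := mul_le_mul_of_nonneg_right hM (by positivity)
  have hterm1 : ∏ p ∈ P, (1 - ((1 : ℕ) : ℝ) / (p : ℝ)) ≤ A * (2 * C₃ * (1 / s)) := by
    have h1 := prod_coprime Y q hq0
    have h2 := hM3 Y hY3
    push_cast
    refine h1.trans ?_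
    apply mul_le_mul_of_nonneg_left _ (by positivity)
    refine h2.trans ?_
    rw [div_le_iff₀ (by linarith)]
    calc C₃ = 2 * C₃ * (1 / s) * (s / 2) := by field_simp
      _ ≤ 2 * C₃ * (1 / s) * Real.log Y := mul_le_mul_of_nonneg_left hlogY (by positivity)
  -- conclusion
  have hfin : (((range N).filter (fun t => ∀ p ∈ P, ¬ p ∣ c + q * (t₀ + t))).card : ℝ) ≤
      N * ∏ p ∈ P, (1 - ((1 : ℕ) : ℝ) / (p : ℝ)) +
      (2 * N * ((∑ p ∈ P, ((1 : ℕ) : ℝ) / (p : ℝ)) ^ b / b.factorial) +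
        (1 + ∑ p ∈ P, (((1 : ℕ)) : ℝ)) ^ b) := by
    have h := (abs_le.mp hbru).2
    have h2 := sub_le_iff_le_add'.mp h
    refine le_trans (le_of_eq ?_) h2
    congr!
  have hcount' : (((Ioc (Q / q) (2 * Q / q)).filter
        (fun x : ℕ => x % q = c ∧ ∀ p, p.Prime → p ∣ x → yQ Q < p)).card : ℝ) ≤
      (((range N).filter (fun t => ∀ p ∈ P, ¬ p ∣ c + q * (t₀ + t))).card : ℝ) := by
    exact_mod_cast hcount
  rw [hW]
  have hN0 : (0 : ℝ) ≤ N := by positivity
  have hs1 : 0 < 1 / s := by positivity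
  have e1 : (N : ℝ) * ∏ p ∈ P, (1 - ((1 : ℕ) : ℝ) / (p : ℝ)) ≤ 3 * M * (A * (2 * C₃ * (1 / s))) := by
    calc (N : ℝ) * ∏ p ∈ P, (1 - ((1 : ℕ) : ℝ) / (p : ℝ)) ≤ N * (A * (2 * C₃ * (1 / s))) :=
          mul_le_mul_of_nonneg_left hterm1 hN0
      _ ≤ 3 * M * (A * (2 * C₃ * (1 / s))) :=
          mul_le_mul_of_nonneg_right hNM (by positivity)
  have e2 : 2 * (N : ℝ) * ((∑ p ∈ P, ((1 : ℕ) : ℝ) / (p : ℝ)) ^ b / b.factorial) ≤
      6 * M * (1 / s) := by
    calc 2 * (N : ℝ) * ((∑ p ∈ P, ((1 : ℕ) : ℝ) / (p : ℝ)) ^ b / b.factorial) ≤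
          2 * (N : ℝ) * (1 / s) := mul_le_mul_of_nonneg_left hterm2 (by positivity)
      _ ≤ 6 * M * (1 / s) := by
          apply mul_le_mul_of_nonneg_right _ hs1.le
          linarith
  have hMs : 0 ≤ M * (1 / s) := by positivity
  have hAMs : M * (1 / s) ≤ A * (M * (1 / s)) := le_mul_of_one_le_left hMs hA1
  calc _ ≤ _ := hcount'
    _ ≤ _ := hfin
    _ ≤ 3 * M * (A * (2 * C₃ * (1 / s))) + (6 * M * (1 / s) + M * (1 / s)) := by
        linarith
    _ = 6 * C₃ * (A * (M * (1 / s))) + 7 * (M * (1 / s)) := by ring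
    _ ≤ 6 * C₃ * (A * (M * (1 / s))) + 7 * (A * (M * (1 / s))) := by linarith
    _ = (6 * C₃ + 7) * M * A * (1 / s) := by ring

end Pool.Agent.Helper77.TB
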